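import Mathlib

/-!
A nonsingular group action whose translates of the measure are uniformly absolutely continuous
has an equivalent invariant probability measure.
-/

namespace Pool.Agent.MP_2b113a_an.H49

open MeasureTheory
open scoped ENNReal NNReal InnerProductSpace

theorem hilbert_fixed {H G : Type*} [NormedAddCommGroup H] [InnerProductSpace ℝ H]
    [CompleteSpace H] [Group G] (U : G → H →ₗ[ℝ] H) (hn : ∀ g x, ‖U g x‖ = ‖x‖) (v : H)
    (hv : ∀ g h, U g (U h v) = U (g * h) v) :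
    ∃ ξ : H, (∀ g, U g ξ = ξ) ∧ ∀ (w : H) (c : ℝ), (∀ g, c ≤ ⟪w, U g v⟫_ℝ) → c ≤ ⟪w, ξ⟫_ℝ := by
  set K : Set H := closure (convexHull ℝ (Set.range fun g => U g v)) with hK
  have hconv : Convex ℝ K := (convex_convexHull ℝ _).closure
  have hne : K.Nonempty := ⟨U 1 v, subset_closure (subset_convexHull ℝ _ ⟨1, rfl⟩)⟩
  have hsub : ∀ C : Set H, IsClosed C → Convex ℝ C → (∀ g, U g v ∈ C) → K ⊆ C := by
    intro C hc hv' hC
    refine closure_minimal (convexHull_min ?_ hv') hc
    rintro _ ⟨g, rfl⟩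
    exact hC g
  obtain ⟨ξ, hξ, hmin⟩ :=
    exists_norm_eq_iInf_of_complete_convex hne isClosed_closure.isComplete hconv 0
  rw [norm_eq_iInf_iff_real_inner_le_zero hconv hξ] at hmin
  refine ⟨ξ, fun g => ?_, fun w c hc => ?_⟩
  · have hcont : Continuous (U g) :=
      (AddMonoidHomClass.isometry_of_norm (U g) (hn g)).continuous
    have hmem : U g ξ ∈ K := by
      refine hsub (U g ⁻¹' K) (isClosed_closure.preimage hcont) (hconv.linear_preimage (U g))
        (fun h => ?_) hξ
      show U g (U h v) ∈ K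
      rw [hv]
      exact subset_closure (subset_convexHull ℝ _ ⟨g * h, rfl⟩)
    have h1 := hmin _ hmem
    rw [zero_sub, inner_neg_left, inner_sub_right, real_inner_self_eq_norm_sq] at h1
    have h2 : ‖U g ξ - ξ‖ ^ 2 ≤ 0 := by
      rw [norm_sub_sq_real, hn, real_inner_comm]
      linarith
    have h3 : ‖U g ξ - ξ‖ = 0 := by
      have := norm_nonneg (U g ξ - ξ)
      nlinarith
    exact sub_eq_zero.1 (norm_eq_zero.1 h3)
  · have hcont : Continuous fun x : H => ⟪w, x⟫_ℝ := by fun_prop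
    refine hsub {x | c ≤ ⟪w, x⟫_ℝ} (isClosed_le continuous_const hcont) ?_ hc hξ
    exact convex_halfSpace_ge (innerSL ℝ w).toLinearMap.isLinear c

variable {G X : Type*} [Group G] [MeasurableSpace X] [MulAction G X]

/-- The translates of `μ` by the elements of `S` are uniformly absolutely continuous. -/
def Bdd (μ : Measure X) (S : Set G) : Prop :=
  ∀ ε : ℝ≥0∞, ε ≠ 0 → ∃ δ : ℝ≥0∞, δ ≠ 0 ∧ ∀ g ∈ S, ∀ E : Set X, MeasurableSet E → μ E < δ →
    μ ((fun x : X => g • x) ⁻¹' E) < ε

/-- The density of the translate of `μ` by `g`. -/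
noncomputable def ρ (μ : Measure X) (g : G) : X → ℝ≥0∞ :=
  (μ.map fun x : X => g • x).rnDeriv μ

/-- The square root of the density. -/
noncomputable def r (μ : Measure X) (g : G) (x : X) : ℝ := Real.sqrt (ρ μ g x).toReal

theorem meas_ρ (μ : Measure X) (g : G) : Measurable (ρ μ g) := Measure.measurable_rnDeriv _ _

theorem meas_r (μ : Measure X) (g : G) : Measurable (r μ g) :=
  (meas_ρ μ g).ennreal_toReal.sqrt

theorem r_sq (μ : Measure X) (g : G) (x : X) : r μ g x ^ 2 = (ρ μ g x).toReal :=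
  Real.sq_sqrt ENNReal.toReal_nonneg

section
variable {μ : Measure X} [IsProbabilityMeasure μ] (hm : ∀ g : G, Measurable fun x : X => g • x)
  (hac : ∀ g : G, (μ.map fun x : X => g • x) ≪ μ)
include hm hac

theorem key_lint (g : G) {φ : X → ℝ≥0∞} (hφ : Measurable φ) :
    ∫⁻ x, ρ μ g x * φ x ∂μ = ∫⁻ x, φ (g • x) ∂μ := by
  unfold ρ
  rw [lintegral_rnDeriv_mul (hac g) hφ.aemeasurable, lintegral_map hφ (hm g)]

theorem ρ_cocycle (g h : G) :
    ∀ᵐ x ∂μ, ρ μ (g * h) x = ρ μ g x * ρ μ h (g⁻¹ • x) := by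
  have hF : Measurable fun x : X => ρ μ g x * ρ μ h (g⁻¹ • x) :=
    (meas_ρ μ g).mul ((meas_ρ μ h).comp (hm g⁻¹))
  have h1 : (μ.map fun x : X => (g * h) • x) =
      μ.withDensity fun x : X => ρ μ g x * ρ μ h (g⁻¹ • x) := by
    ext s hs
    have hi : Measurable (s.indicator (1 : X → ℝ≥0∞)) := measurable_one.indicator hs
    rw [withDensity_apply _ hs, Measure.map_apply (hm _) hs, ← lintegral_indicator hs]
    have e1 : (s.indicator fun x : X => ρ μ g x * ρ μ h (g⁻¹ • x)) =
        fun x => ρ μ g x * (ρ μ h (g⁻¹ • x) * s.indicator 1 x) := by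
      ext x
      by_cases hx : x ∈ s <;> simp [hx]
    rw [e1, key_lint hm hac g (φ := fun x => ρ μ h (g⁻¹ • x) * s.indicator 1 x)
      (((meas_ρ μ h).comp (hm g⁻¹)).mul hi)]
    simp only [inv_smul_smul]
    rw [key_lint hm hac h (φ := fun x => s.indicator 1 (g • x)) (hi.comp (hm g)),
      ← lintegral_indicator_one ((hm _) hs)]
    congr 1
    ext x
    by_cases hx : g • h • x ∈ s <;> simp [hx, mul_smul, Set.indicator]
  have h2 := Measure.rnDeriv_withDensity μ hF
  rw [← h1] at h2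
  exact h2

theorem r_cocycle (g h : G) :
    ∀ᵐ x ∂μ, r μ (g * h) x = r μ g x * r μ h (g⁻¹ • x) := by
  filter_upwards [ρ_cocycle hm hac g h] with x hx
  unfold r
  rw [hx, ENNReal.toReal_mul, Real.sqrt_mul ENNReal.toReal_nonneg]

theorem integrable_U (g : G) {f : X → ℝ} (hf : Measurable f) (hi : Integrable f μ) :
    Integrable (fun x => (ρ μ g x).toReal * f (g⁻¹ • x)) μ := by
  unfold ρ
  rw [integrable_toReal_rnDeriv_mul_iff (hac g),
    integrable_map_measure (g := fun x => f (g⁻¹ • x))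
      (hf.comp (hm g⁻¹)).aestronglyMeasurable (hm g).aemeasurable]
  simpa [Function.comp_def] using hi

theorem integral_U (g : G) {f : X → ℝ} (hf : Measurable f) :
    ∫ x, (ρ μ g x).toReal * f (g⁻¹ • x) ∂μ = ∫ x, f x ∂μ := by
  unfold ρ
  rw [integral_toReal_rnDeriv_mul (hac g),
    integral_map (f := fun x => f (g⁻¹ • x)) (hm g).aemeasurable
      (hf.comp (hm g⁻¹)).aestronglyMeasurable]
  simp

theorem memLp_U (g : G) (f : Lp ℝ 2 μ) :
    MemLp (fun x => r μ g x * f (g⁻¹ • x)) 2 μ := by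
  have hf : Measurable f := (Lp.stronglyMeasurable f).measurable
  rw [memLp_two_iff_integrable_sq (f := fun x => r μ g x * f (g⁻¹ • x))
    ((meas_r μ g).mul (hf.comp (hm g⁻¹))).aestronglyMeasurable]
  have h2 : Integrable (fun x => f x ^ 2) μ :=
    (memLp_two_iff_integrable_sq (Lp.aestronglyMeasurable f)).1 (Lp.memLp f)
  have := integrable_U hm hac g (hf.pow_const 2) h2
  simpa only [mul_pow, r_sq] using this

omit [IsProbabilityMeasure μ] in
theorem ae_smul (g : G) {p : X → Prop} (hp : ∀ᵐ x ∂μ, p x) : ∀ᵐ x ∂μ, p (g • x) :=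
  (Measure.QuasiMeasurePreserving.mk (hm g) (hac g)).ae hp

/-- The Koopman operator. -/
noncomputable def U (g : G) : Lp ℝ 2 μ →ₗ[ℝ] Lp ℝ 2 μ where
  toFun f := (memLp_U hm hac g f).toLp
  map_add' f f' := by
    rw [← MemLp.toLp_add]
    refine MemLp.toLp_congr _ _ ?_
    filter_upwards [ae_smul hm hac g⁻¹ (Lp.coeFn_add f f')] with x hx
    simp only [Pi.add_apply] at hx ⊢
    rw [hx, mul_add]
  map_smul' c f := by
    rw [RingHom.id_apply, ← MemLp.toLp_const_smul]
    refine MemLp.toLp_congr _ _ ?_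
    filter_upwards [ae_smul hm hac g⁻¹ (Lp.coeFn_smul c f)] with x hx
    simp only [Pi.smul_apply, smul_eq_mul] at hx ⊢
    rw [hx]
    ring

theorem U_ae (g : G) (f : Lp ℝ 2 μ) :
    ∀ᵐ x ∂μ, U hm hac g f x = r μ g x * f (g⁻¹ • x) :=
  (memLp_U hm hac g f).coeFn_toLp

omit hm hac [IsProbabilityMeasure μ] in
theorem norm_sq_eq (f : Lp ℝ 2 μ) : ‖f‖ ^ 2 = ∫ x, f x ^ 2 ∂μ := by
  rw [← real_inner_self_eq_norm_sq, L2.inner_def]
  simp

theorem norm_U (g : G) (f : Lp ℝ 2 μ) : ‖U hm hac g f‖ = ‖f‖ := by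
  have hf : Measurable f := (Lp.stronglyMeasurable f).measurable
  rw [← sq_eq_sq₀ (norm_nonneg _) (norm_nonneg _), norm_sq_eq, norm_sq_eq,
    ← integral_U hm hac g (hf.pow_const 2)]
  refine integral_congr_ae ?_
  filter_upwards [U_ae hm hac g f] with x hx
  rw [hx, mul_pow, r_sq]

omit hm hac in
/-- The constant function one. -/
noncomputable def one (μ : Measure X) [IsProbabilityMeasure μ] : Lp ℝ 2 μ :=
  (memLp_const (1 : ℝ)).toLp

theorem U_one_ae (g : G) : ∀ᵐ x ∂μ, U hm hac g (one μ) x = r μ g x := by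
  have h1 : ∀ᵐ x ∂μ, one μ x = 1 := (memLp_const (1 : ℝ)).coeFn_toLp
  filter_upwards [U_ae hm hac g (one μ), ae_smul hm hac g⁻¹ h1] with x hx hx'
  rw [hx, hx', mul_one]

theorem U_U_one (g h : G) : U hm hac g (U hm hac h (one μ)) = U hm hac (g * h) (one μ) := by
  refine Lp.ext ?_
  filter_upwards [U_ae hm hac g (U hm hac h (one μ)), ae_smul hm hac g⁻¹ (U_one_ae hm hac h),
    U_one_ae hm hac (g * h), r_cocycle hm hac g h] with x h1 h2 h3 h4
  rw [h1, h2, h3, h4]

theorem lower_bound (hb : Bdd μ (Set.univ : Set G)) {E : Set X} (hE : MeasurableSet E)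
    (h0 : μ E ≠ 0) : ∃ c : ℝ, 0 < c ∧ ∀ g : G, c ≤ ∫ x in E, U hm hac g (one μ) x ∂μ := by
  have hEt : μ E ≠ ∞ := measure_ne_top _ _
  obtain ⟨δ, hδ, hb⟩ := hb (μ E / 2) (by simp [h0])
  obtain ⟨η, hη0, hη⟩ : ∃ η : ℝ≥0, 0 < η ∧ (η : ℝ≥0∞) < δ := by
    obtain ⟨η, h1, h2⟩ := ENNReal.lt_iff_exists_nnreal_btwn.1 (pos_iff_ne_zero.2 hδ)
    exact ⟨η, by exact_mod_cast h1, h2⟩
  have hpos : 0 < (μ E / 2).toReal :=
    ENNReal.toReal_pos (by simp [h0]) (ENNReal.div_ne_top hEt (by simp))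
  refine ⟨Real.sqrt η * (μ E / 2).toReal, mul_pos (Real.sqrt_pos.2 (by exact_mod_cast hη0)) hpos,
    fun g => ?_⟩
  set F : Set X := {x | ρ μ g x < η} with hF
  have hFm : MeasurableSet F := measurableSet_lt (meas_ρ μ g) measurable_const
  have h1 : μ ((fun x : X => g • x) ⁻¹' F) < δ := by
    rw [← Measure.map_apply (hm g) hFm, ← Measure.setLIntegral_rnDeriv' (hac g) hFm]
    refine lt_of_le_of_lt ?_ hη
    calc ∫⁻ x in F, (μ.map fun x : X => g • x).rnDeriv μ x ∂μ ≤ ∫⁻ _ in F, (η : ℝ≥0∞) ∂μ :=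
          setLIntegral_mono' hFm fun x hx => le_of_lt hx
      _ = η * μ F := by simp
      _ ≤ η * 1 := by gcongr; exact prob_le_one
      _ = η := mul_one _
  have h2 : μ F < μ E / 2 := by
    have := hb g⁻¹ (Set.mem_univ _) _ (hm g hFm) h1
    simpa [Set.preimage_preimage] using this
  have h3 : μ E / 2 ≤ μ (E \ F) := by
    have h4 : μ E ≤ μ (E \ F) + μ F := by
      refine (measure_mono ?_).trans (measure_union_le _ _)
      intro x hx
      by_cases hxF : x ∈ F
      · exact Or.inr hxF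
      · exact Or.inl ⟨hx, hxF⟩
    by_contra hlt
    push Not at hlt
    have := ENNReal.add_lt_add hlt h2
    rw [ENNReal.add_halves] at this
    exact absurd h4 (not_le.2 this)
  have hint : Integrable (U hm hac g (one μ)) μ := (Lp.memLp _).integrable (by norm_num)
  calc Real.sqrt η * (μ E / 2).toReal ≤ Real.sqrt η * μ.real (E \ F) := by
        gcongr
        exact ENNReal.toReal_mono (measure_ne_top _ _) h3
    _ = ∫ _ in E \ F, Real.sqrt η ∂μ := by simp [mul_comm]
    _ ≤ ∫ x in E \ F, U hm hac g (one μ) x ∂μ := by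
        refine setIntegral_mono_on_ae (integrable_const _).integrableOn hint.integrableOn
          (hE.diff hFm) ?_
        filter_upwards [U_one_ae hm hac g,
          Measure.rnDeriv_lt_top (μ.map fun x : X => g • x) μ] with x hx hx' hxm
        rw [hx]
        refine Real.sqrt_le_sqrt ?_
        have h5 : (η : ℝ≥0∞) ≤ ρ μ g x := not_lt.1 hxm.2
        have h6 : ρ μ g x ≠ ∞ := hx'.ne
        simpa using ENNReal.toReal_mono h6 h5
    _ ≤ ∫ x in E, U hm hac g (one μ) x ∂μ := by
        refine setIntegral_mono_set hint.integrableOn ?_ (Set.sdiff_subset).eventuallyLE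
        refine ae_restrict_of_ae ?_
        filter_upwards [U_one_ae hm hac g] with x hx
        rw [hx]
        exact Real.sqrt_nonneg _

theorem exists_invariant (hb : Bdd μ (Set.univ : Set G)) :
    ∃ ν : Measure X, IsProbabilityMeasure ν ∧ ν ≪ μ ∧ μ ≪ ν ∧
      ∀ g : G, ν.map (fun x : X => g • x) = ν := by
  obtain ⟨ξ, hinv, hlow⟩ := hilbert_fixed (U hm hac) (norm_U hm hac) (one μ) (U_U_one hm hac)
  have hξ : Measurable ξ := (Lp.stronglyMeasurable ξ).measurable
  have hpos : ∀ᵐ x ∂μ, 0 < ξ x := by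
    have hE : MeasurableSet {x | ξ x ≤ 0} := measurableSet_le hξ measurable_const
    rw [ae_iff]
    simp only [not_lt]
    by_contra h0
    obtain ⟨c, hc, hcg⟩ := lower_bound hm hac hb hE h0
    have h1 := hlow (indicatorConstLp 2 hE (measure_ne_top μ _) (1 : ℝ)) c (fun g => by
      rw [L2.inner_indicatorConstLp_one]
      exact hcg g)
    rw [L2.inner_indicatorConstLp_one] at h1
    have h2 : ∫ x in {x | ξ x ≤ 0}, ξ x ∂μ ≤ 0 := setIntegral_nonpos hE fun x hx => hx
    linarith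
  set D : X → ℝ≥0∞ := fun x => ENNReal.ofReal (ξ x ^ 2) with hD
  have hDm : Measurable D := (hξ.pow_const 2).ennreal_ofReal
  have h2 : Integrable (fun x => ξ x ^ 2) μ :=
    (memLp_two_iff_integrable_sq (Lp.aestronglyMeasurable ξ)).1 (Lp.memLp ξ)
  have : IsFiniteMeasure (μ.withDensity D) := isFiniteMeasure_withDensity_ofReal h2.2
  have hac2 : μ ≪ μ.withDensity D := by
    refine withDensity_absolutelyContinuous' hDm.aemeasurable ?_
    filter_upwards [hpos] with x hx
    simp [hD, hx.ne']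
  have hne : μ.withDensity D ≠ 0 := by
    intro h
    rw [h] at hac2
    exact IsProbabilityMeasure.ne_zero μ (Measure.absolutelyContinuous_zero_iff.1 hac2)
  have : NeZero (μ.withDensity D) := ⟨hne⟩
  have hinv2 : ∀ g : G, (μ.withDensity D).map (fun x : X => g • x) = μ.withDensity D := by
    intro g
    ext s hs
    have hi : Measurable (s.indicator (1 : X → ℝ≥0∞)) := measurable_one.indicator hs
    rw [Measure.map_apply (hm g) hs, withDensity_apply _ (hm g hs), withDensity_apply _ hs,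
      ← lintegral_indicator hs, ← lintegral_indicator (hm g hs)]
    have e1 : ((fun x : X => g • x) ⁻¹' s).indicator D =
        fun x => D (g⁻¹ • g • x) * s.indicator 1 (g • x) := by
      ext x
      by_cases hx : g • x ∈ s <;> simp [hx, Set.indicator]
    rw [e1, ← key_lint hm hac g (φ := fun x => D (g⁻¹ • x) * s.indicator 1 x)
      ((hDm.comp (hm g⁻¹)).mul hi)]
    refine lintegral_congr_ae ?_
    filter_upwards [U_ae hm hac g ξ,
      Measure.rnDeriv_lt_top (μ.map fun x : X => g • x) μ] with x hx hx'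
    rw [hinv] at hx
    by_cases hxs : x ∈ s
    · simp only [hxs, Set.indicator_of_mem, Pi.one_apply, mul_one, hD]
      have h6 : ρ μ g x ≠ ∞ := hx'.ne
      rw [hx, mul_pow, r_sq, ENNReal.ofReal_mul ENNReal.toReal_nonneg,
        ENNReal.ofReal_toReal h6]
    · simp [hxs]
  refine ⟨(μ.withDensity D Set.univ)⁻¹ • μ.withDensity D, inferInstance, ?_, ?_, fun g => ?_⟩
  · exact (withDensity_absolutelyContinuous μ D).smul_left _
  · exact hac2.trans (Measure.absolutelyContinuous_smul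
      (ENNReal.inv_ne_zero.2 (measure_ne_top _ _)))
  · rw [Measure.map_smul, hinv2]

end

end Pool.Agent.MP_2b113a_an.H49
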