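import Pool.Agent.MP_2b113a_an.H83.Defs
import Pool.Agent.MP_2b113a_an.H49.Fixed

/-!
From the plane theorem and bounded generation to the final theorem.
-/

namespace Pool.Agent.MP_2b113a_an.H49

open MeasureTheory Pool.Agent.MP_2b113a_an.H83 Matrix.SpecialLinearGroup
open scoped ENNReal NNReal Pointwise

theorem eps_delta {X : Type*} [MeasurableSpace X] {μ ν : Measure X} [IsFiniteMeasure μ]
    [IsFiniteMeasure ν] (h : ν ≪ μ) {ε : ℝ≥0∞} (hε : ε ≠ 0) :
    ∃ δ : ℝ≥0∞, δ ≠ 0 ∧ ∀ E : Set X, MeasurableSet E → μ E < δ → ν E < ε := by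
  have h1 : ∫⁻ x, ν.rnDeriv μ x ∂μ ≠ ∞ := (Measure.lintegral_rnDeriv_lt_top ν μ).ne
  obtain ⟨δ, hδ, H⟩ := exists_pos_setLIntegral_lt_of_measure_lt h1 hε
  refine ⟨δ, hδ.ne', fun E hE hlt => ?_⟩
  rw [← Measure.setLIntegral_rnDeriv' h hE]
  exact H E hlt

section
variable {G X : Type*} [Group G] [MeasurableSpace X] [MulAction G X] {μ : Measure X}

theorem Bdd.mono {S T : Set G} (h : Bdd μ T) (hST : S ⊆ T) : Bdd μ S := by
  intro ε hε
  obtain ⟨δ, hδ, H⟩ := h ε hε
  exact ⟨δ, hδ, fun g hg => H g (hST hg)⟩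

theorem Bdd.union {S T : Set G} (hS : Bdd μ S) (hT : Bdd μ T) : Bdd μ (S ∪ T) := by
  intro ε hε
  obtain ⟨δ, hδ, H⟩ := hS ε hε
  obtain ⟨δ', hδ', H'⟩ := hT ε hε
  refine ⟨min δ δ', by simp [hδ, hδ'], fun g hg E hE hlt => ?_⟩
  rcases hg with hg | hg
  · exact H g hg E hE (hlt.trans_le (min_le_left _ _))
  · exact H' g hg E hE (hlt.trans_le (min_le_right _ _))

theorem bdd_empty : Bdd μ (∅ : Set G) := fun _ _ => ⟨1, one_ne_zero, fun _ h => h.elim⟩

theorem bdd_biUnion {ι : Type*} {I : Set ι} (hI : I.Finite) {S : ι → Set G}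
    (h : ∀ i ∈ I, Bdd μ (S i)) : Bdd μ (⋃ i ∈ I, S i) := by
  induction I, hI using Set.Finite.induction_on with
  | empty => simpa using bdd_empty
  | insert _ _ ih =>
    rw [Set.biUnion_insert]
    exact (h _ (Set.mem_insert _ _)).union (ih fun i hi => h i (Set.mem_insert_of_mem _ hi))

theorem Bdd.mul (hm : ∀ g : G, Measurable fun x : X => g • x) {S T : Set G} (hS : Bdd μ S)
    (hT : Bdd μ T) : Bdd μ (S * T) := by
  intro ε hε
  obtain ⟨δ, hδ, H⟩ := hT ε hε
  obtain ⟨δ', hδ', H'⟩ := hS δ hδ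
  refine ⟨δ', hδ', ?_⟩
  rintro _ ⟨g, hg, h, hh, rfl⟩ E hE hlt
  have := H h hh _ (hm g hE) (H' g hg E hE hlt)
  simpa [Set.preimage_preimage, mul_smul] using this

theorem bdd_finite [IsFiniteMeasure μ] (hm : ∀ g : G, Measurable fun x : X => g • x)
    (hac : ∀ g : G, (μ.map fun x : X => g • x) ≪ μ) {S : Set G} (hS : S.Finite) : Bdd μ S := by
  rw [← Set.biUnion_of_singleton S]
  refine bdd_biUnion hS fun g _ ε hε => ?_
  obtain ⟨δ, hδ, H⟩ := eps_delta (hac g) hε
  refine ⟨δ, hδ, ?_⟩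
  rintro _ rfl E hE hlt
  rw [← Measure.map_apply (hm _) hE]
  exact H E hE hlt

theorem bdd_of_invariant [IsFiniteMeasure μ] (hm : ∀ g : G, Measurable fun x : X => g • x)
    {ν : Measure X} [IsFiniteMeasure ν] (h1 : ν ≪ μ) (h2 : μ ≪ ν) :
    Bdd μ {g : G | ν.map (fun x : X => g • x) = ν} := by
  intro ε hε
  obtain ⟨δ, hδ, H⟩ := eps_delta h2 hε
  obtain ⟨δ', hδ', H'⟩ := eps_delta h1 hδ
  refine ⟨δ', hδ', fun g hg E hE hlt => H _ (hm g hE) ?_⟩
  rw [← Measure.map_apply (hm g) hE, hg]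
  exact H' E hE hlt

end

section
variable {ι : Type*} [Fintype ι] [DecidableEq ι] {i j k : ι}

/-- The plane lattice in the column `j`. -/
def A (hij : i ≠ j) (hkj : k ≠ j) (v : ℤ × ℤ) : Matrix.SpecialLinearGroup ι ℤ :=
  transvection hij v.1 * transvection hkj v.2

theorem A_coe (hij : i ≠ j) (hkj : k ≠ j) (v : ℤ × ℤ) :
    (A hij hkj v : Matrix ι ι ℤ) = 1 + Matrix.single i j v.1 + Matrix.single k j v.2 := by
  simp [A, transvection_coe, mul_add, add_mul, Matrix.single_mul_single_of_ne _ _ _ _ hkj.symm]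

theorem A_add (hij : i ≠ j) (hkj : k ≠ j) (v w : ℤ × ℤ) :
    A hij hkj (v + w) = A hij hkj v * A hij hkj w := by
  refine Subtype.ext ?_
  rw [Matrix.SpecialLinearGroup.coe_mul, A_coe, A_coe, A_coe]
  simp only [mul_add, add_mul, Matrix.single_mul_single_of_ne _ _ _ _ hkj.symm,
    Matrix.single_mul_single_of_ne _ _ _ _ hij.symm, Prod.fst_add, Prod.snd_add,
    Matrix.single_add, mul_one, one_mul, add_zero]
  abel

theorem A_zero (hij : i ≠ j) (hkj : k ≠ j) : A hij hkj 0 = 1 := by simp [A]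

theorem A_nsmul (hij : i ≠ j) (hkj : k ≠ j) (v : ℤ × ℤ) (m : ℕ) :
    A hij hkj (m • v) = A hij hkj v ^ m := by
  induction m with
  | zero => simp [A_zero]
  | succ m ih => rw [succ_nsmul, A_add, ih, pow_succ]

theorem u_mul_A (hij : i ≠ j) (hkj : k ≠ j) (hik : i ≠ k) (c : ℤ) (v : ℤ × ℤ) :
    transvection hik c * A hij hkj v = A hij hkj (v.1 + c * v.2, v.2) * transvection hik c := by
  refine Subtype.ext ?_
  rw [Matrix.SpecialLinearGroup.coe_mul, Matrix.SpecialLinearGroup.coe_mul, A_coe, A_coe,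
    transvection_coe]
  simp only [mul_add, add_mul, Matrix.single_mul_single_of_ne _ _ _ _ hik.symm,
    Matrix.single_mul_single_of_ne _ _ _ _ hij.symm, Matrix.single_mul_single_same,
    Matrix.single_add, mul_one, one_mul, add_zero]
  abel

theorem l_mul_A (hij : i ≠ j) (hkj : k ≠ j) (hik : i ≠ k) (c : ℤ) (v : ℤ × ℤ) :
    transvection hik.symm c * A hij hkj v =
      A hij hkj (v.1, c * v.1 + v.2) * transvection hik.symm c := by
  refine Subtype.ext ?_
  rw [Matrix.SpecialLinearGroup.coe_mul, Matrix.SpecialLinearGroup.coe_mul, A_coe, A_coe,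
    transvection_coe]
  simp only [mul_add, add_mul, Matrix.single_mul_single_of_ne _ _ _ _ hik,
    Matrix.single_mul_single_of_ne _ _ _ _ hkj.symm, Matrix.single_mul_single_same,
    Matrix.single_add, mul_one, one_mul, add_zero]
  abel

theorem t_mul_A (hij : i ≠ j) (hkj : k ≠ j) (hik : i ≠ k) {e : ℤ} (he : e * e = 1) (v : ℤ × ℤ) :
    (transvection hik e * transvection hik.symm e) * A hij hkj v =
      A hij hkj (hyp e v) * (transvection hik e * transvection hik.symm e) := by
  rw [mul_assoc, l_mul_A hij hkj hik, ← mul_assoc, u_mul_A hij hkj hik, mul_assoc]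
  congr 2
  simp only [hyp, Prod.mk.injEq, and_true]
  linear_combination v.1 * he

theorem t_pow_mul_A (hij : i ≠ j) (hkj : k ≠ j) (hik : i ≠ k) {e : ℤ} (he : e * e = 1) (m : ℕ)
    (v : ℤ × ℤ) : (transvection hik e * transvection hik.symm e) ^ m * A hij hkj v =
      A hij hkj ((hyp e)^[m] v) * (transvection hik e * transvection hik.symm e) ^ m := by
  induction m generalizing v with
  | zero => simp
  | succ m ih =>
    rw [pow_succ, mul_assoc, t_mul_A hij hkj hik he, ← mul_assoc, ih, mul_assoc,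
      Function.iterate_succ_apply]

theorem hyp_iter_nsmul (e : ℤ) (m n : ℕ) (v : ℤ × ℤ) :
    (hyp e)^[m] (n • v) = n • (hyp e)^[m] v := by
  induction m generalizing v with
  | zero => simp
  | succ m ih =>
    rw [Function.iterate_succ_apply, Function.iterate_succ_apply, ← ih]
    congr 1
    obtain ⟨a, b⟩ := v
    simp only [hyp, Prod.smul_mk, nsmul_eq_mul, Prod.mk.injEq]
    constructor <;> ring

end

theorem exists_third {n : ℕ} (hn : 3 ≤ n) (i j : Fin n) : ∃ k : Fin n, i ≠ k ∧ k ≠ j := by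
  by_contra h
  push Not at h
  have h1 : (Finset.univ : Finset (Fin n)) ⊆ {i, j} := by
    intro k _
    by_cases hk : i = k
    · simp [hk]
    · simp [h k hk]
  have h2 := (Finset.card_le_card h1).trans Finset.card_le_two
  simp at h2
  omega

theorem final_of (hP : PlaneStmt) (hB : BGStmt) : FinalStmt := by
  intro n hn Γ _ Λ hΛ φ hφ hR X _ _ μ _ hEC
  classical
  have hm := hEC.meas
  have hac : ∀ g : Γ, (μ.map fun x : X => g • x) ≪ μ := by
    intro g
    refine Measure.AbsolutelyContinuous.mk fun s hs h0 => ?_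
    rw [Measure.map_apply (hm g) hs]
    have := hEC.ns g⁻¹ s hs h0
    convert this using 2
    ext x
    constructor
    · intro hx
      exact ⟨g • x, hx, by simp⟩
    · rintro ⟨y, hy, rfl⟩
      simpa using hy
  have : Countable (Matrix (Fin n) (Fin n) ℤ) := inferInstanceAs (Countable (Fin n → Fin n → ℤ))
  have : Countable (Matrix.SpecialLinearGroup (Fin n) ℤ) := Subtype.countable
  have : Countable Λ := hφ.countable
  have : Countable Γ := (Subgroup.groupEquivQuotientProdSubgroup (s := Λ)).injective.countable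
  set N := φ.range.normalCore with hN
  have hNR : N ≤ φ.range := Subgroup.normalCore_le _
  set M := N.index with hM
  have hM0 : M ≠ 0 := Subgroup.FiniteIndex.index_ne_zero
  have hpow : ∀ g, g ^ M ∈ N := fun g => Subgroup.pow_index_mem N g
  have hconj : ∀ f g, g ∈ N → f⁻¹ * g * f ∈ N := fun f g hg => by
    simpa using (Subgroup.normalCore_normal φ.range).conj_mem g hg f⁻¹
  set lift : Matrix.SpecialLinearGroup (Fin n) ℤ → Γ := fun g => (Function.invFun φ g : Λ)
    with hlift
  have lift_φ : ∀ a : Λ, lift (φ a) = a := fun a => by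
    simp only [hlift]
    rw [Function.leftInverse_invFun hφ a]
  have lift_mul : ∀ g h, g ∈ φ.range → h ∈ φ.range → lift (g * h) = lift g * lift h := by
    rintro _ _ ⟨a, rfl⟩ ⟨b, rfl⟩
    rw [← map_mul, lift_φ, lift_φ, lift_φ, Subgroup.coe_mul]
  -- conjugates of root groups are bounded
  have hroot : ∀ (f : Matrix.SpecialLinearGroup (Fin n) ℤ) (i j : Fin n),
      Bdd μ {γ : Γ | ∃ (hij : i ≠ j) (q : ℤ), γ = lift (f⁻¹ * transvection hij q ^ M * f)} := by
    intro f i j
    by_cases hij : i = j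
    · exact bdd_empty.mono (by rintro _ ⟨h, -⟩; exact (h hij).elim)
    obtain ⟨k, hik, hkj⟩ := exists_third hn i j
    have hA : ∀ v : ℤ × ℤ, f⁻¹ * A hij hkj (M • v) * f ∈ φ.range := fun v =>
      hNR (hconj _ _ (by rw [A_nsmul]; exact hpow _))
    have hrel : ∀ e : ℤ, e * e = 1 → ∀ v : ℤ × ℤ,
        lift (f⁻¹ * (transvection hik e * transvection hik.symm e) ^ M * f) *
          lift (f⁻¹ * A hij hkj (M • v) * f) =
        lift (f⁻¹ * A hij hkj (M • (hyp e)^[M] v) * f) *
          lift (f⁻¹ * (transvection hik e * transvection hik.symm e) ^ M * f) := by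
      intro e he v
      have ht := hNR (hconj f _ (hpow (transvection hik e * transvection hik.symm e)))
      rw [← lift_mul _ _ ht (hA _), ← lift_mul _ _ (hA _) ht]
      congr 1
      have := t_pow_mul_A hij hkj hik he M (M • v)
      rw [hyp_iter_nsmul] at this
      calc _ = f⁻¹ * ((transvection hik e * transvection hik.symm e) ^ M *
            A hij hkj (M • v)) * f := by group
        _ = _ := by rw [this]; group
    obtain ⟨ν, hν, h1, h2, h3⟩ := hP Γ X μ hEC (fun v => lift (f⁻¹ * A hij hkj (M • v) * f))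
      _ _ M (Nat.one_le_iff_ne_zero.2 hM0)
      (fun v w => by
        rw [← lift_mul _ _ (hA _) (hA _), smul_add, A_add]
        congr 1
        group)
      (hrel 1 (by norm_num)) (hrel (-1) (by norm_num))
    refine (bdd_of_invariant hm h1 h2).mono ?_
    rintro _ ⟨hij', q, rfl⟩
    have := h3 (q, 0)
    rw [A_nsmul] at this
    simpa [A] using this
  -- bounded products of transvections
  have hprod : ∀ m : ℕ, ∃ (F : Set (Matrix.SpecialLinearGroup (Fin n) ℤ)) (S : Set Γ),
      F.Finite ∧ Bdd μ S ∧ ∀ L : List (Matrix.SpecialLinearGroup (Fin n) ℤ), L.length ≤ m →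
        (∀ e ∈ L, ∃ (i j : Fin n) (c : ℤ), i ≠ j ∧
          (e : Matrix (Fin n) (Fin n) ℤ) = Matrix.transvection i j c) →
        ∃ f ∈ F, ∃ h ∈ N, lift h ∈ S ∧ L.prod = f * h := by
    intro m
    induction m with
    | zero =>
      refine ⟨{1}, {lift 1}, Set.finite_singleton _, bdd_finite hm hac (Set.finite_singleton _),
        fun L hL _ => ⟨1, rfl, 1, N.one_mem, rfl, ?_⟩⟩
      rw [List.length_eq_zero_iff.1 (Nat.le_zero.1 hL)]
      simp
    | succ m ih =>
      obtain ⟨F, S, hF, hS, H⟩ := ih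
      set R : Set (Matrix.SpecialLinearGroup (Fin n) ℤ) := Set.range
        fun p : {p : Fin n × Fin n // p.1 ≠ p.2} × Fin M => transvection p.1.2 ((p.2 : ℕ) : ℤ)
        with hRdef
      set T : Set Γ := ⋃ p ∈ F ×ˢ (Set.univ : Set (Fin n × Fin n)),
        {γ : Γ | ∃ (hij : p.2.1 ≠ p.2.2) (q : ℤ),
          γ = lift (p.1⁻¹ * transvection hij q ^ M * p.1)} with hT
      have hTb : Bdd μ T := bdd_biUnion (hF.prod Set.finite_univ) fun p _ => hroot _ _ _
      refine ⟨F ∪ R * F, S ∪ T * S, hF.union ((Set.finite_range _).mul hF),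
        hS.union (hTb.mul hm hS), fun L hL hL' => ?_⟩
      cases L with
      | nil =>
        obtain ⟨f, hf, h, hh, h1, h2⟩ := H [] (by simp) (by simp)
        exact ⟨f, Or.inl hf, h, hh, Or.inl h1, h2⟩
      | cons e L =>
        obtain ⟨f, hf, h, hh, h1, h2⟩ := H L (by simpa using hL)
          (fun e he => hL' e (List.mem_cons_of_mem _ he))
        obtain ⟨i, j, c, hij, hc⟩ := hL' e List.mem_cons_self
        have hMpos : (0 : ℤ) < M := by exact_mod_cast Nat.pos_of_ne_zero hM0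
        have hr0 : 0 ≤ c % M := Int.emod_nonneg _ hMpos.ne'
        have hr1 : c % M < M := Int.emod_lt_of_pos _ hMpos
        have hpw : ∀ (q : ℤ) (m : ℕ), transvection hij q ^ m = transvection hij (m * q) := by
          intro q m
          induction m with
          | zero => simp
          | succ m ih => rw [pow_succ, ih, ← transvection_add]; congr 1; push_cast; ring
        have he : e = transvection hij (c % M) * transvection hij (c / M) ^ M := by
          rw [hpw, ← transvection_add, Int.emod_add_mul_ediv]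
          exact Subtype.ext hc
        have hN1 : f⁻¹ * transvection hij (c / M) ^ M * f ∈ N := hconj _ _ (hpow _)
        refine ⟨transvection hij (c % M) * f, Or.inr ⟨_, ?_, f, hf, rfl⟩,
          (f⁻¹ * transvection hij (c / M) ^ M * f) * h, N.mul_mem hN1 hh, Or.inr ?_, ?_⟩
        · refine ⟨(⟨(i, j), hij⟩, ⟨(c % M).toNat, by omega⟩), ?_⟩
          simp [Int.toNat_of_nonneg hr0]
        · rw [lift_mul _ _ (hNR hN1) (hNR hh)]
          refine ⟨_, ?_, _, h1, rfl⟩
          simp only [hT, Set.mem_iUnion]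
          exact ⟨(f, (i, j)), ⟨hf, Set.mem_univ _⟩, hij, c / M, rfl⟩
        · rw [List.prod_cons, h2, he]
          group
  obtain ⟨m, hm'⟩ := hB n hn
  obtain ⟨F, S, hF, hS, H⟩ := hprod m
  have hΛb : Bdd μ (Λ : Set Γ) := by
    refine ((bdd_finite hm hac (hF.image lift)).mul hm hS).mono fun a ha => ?_
    obtain ⟨L, hL, hL1, hL2⟩ := hm' (φ ⟨a, ha⟩)
    obtain ⟨f, hf, h, hh, h1, h2⟩ := H L hL hL2
    rw [hL1] at h2
    have hfR : f ∈ φ.range := by
      have : f = φ ⟨a, ha⟩ * h⁻¹ := by rw [h2]; group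
      rw [this]
      exact φ.range.mul_mem ⟨_, rfl⟩ (φ.range.inv_mem (hNR hh))
    refine ⟨lift f, ⟨f, hf, rfl⟩, lift h, h1, ?_⟩
    show lift f * lift h = a
    rw [← lift_mul _ _ hfR (hNR hh), ← h2, lift_φ]
  have hall : Bdd μ (Set.univ : Set Γ) := by
    refine ((bdd_finite hm hac (Set.finite_range fun q : Γ ⧸ Λ => q.out)).mul hm hΛb).mono
      fun g _ => ?_
    obtain ⟨h, hh⟩ := QuotientGroup.mk_out_eq_mul Λ g
    refine ⟨_, ⟨(g : Γ ⧸ Λ), rfl⟩, (h⁻¹ : Λ), (h⁻¹).2, ?_⟩
    show (g : Γ ⧸ Λ).out * ((h⁻¹ : Λ) : Γ) = g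
    rw [hh]
    simp
  exact exists_invariant hm hac hall

end Pool.Agent.MP_2b113a_an.H49
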