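import Mathlib
import Pool.Agent.MP_2b113a_an.C3.Iface
import Pool.Agent.MP_2b113a_an.H36.PD

/-!
Positive definite functions on three-space: Gaussian averages are integrals of Gaussian symbols
against a nonnegative function, up to a limit.
-/

namespace Pool.Agent.MP_2b113a_an.H49.PD3

open MeasureTheory ProbabilityTheory Filter Topology
open scoped ENNReal NNReal Real
open Pool.Agent.MP_2b113a_an.C3
open Pool.Agent.MP_2b113a_an.H36 (int_bdd inv1 ee dd ee_pos dd_nonneg sum_dd dd_lower)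

/-- An unnormalised Gaussian. -/
noncomputable def g3 (a b c : ℝ) (q : T3) : ℝ :=
  Real.exp (-a * q.1 ^ 2) * (Real.exp (-b * q.2.1 ^ 2) * Real.exp (-c * q.2.2 ^ 2))

@[fun_prop] lemma continuous_g3 (a b c : ℝ) : Continuous (g3 a b c) := by unfold g3; fun_prop

@[fun_prop] lemma measurable_g3 (a b c : ℝ) : Measurable (g3 a b c) :=
  (continuous_g3 a b c).measurable

@[fun_prop] lemma measurable_dot {α : Type*} [MeasurableSpace α] {f g : α → T3}
    (hf : Measurable f) (hg : Measurable g) : Measurable fun x => dot (f x) (g x) := by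
  unfold dot; fun_prop

lemma g3_pos (a b c : ℝ) (q : T3) : 0 < g3 a b c q := by unfold g3; positivity

lemma g3_eq (ε : ℝ) (q : T3) : g3 ε ε ε q = Real.exp (-ε * nsq q) := by
  rw [g3, ← Real.exp_add, ← Real.exp_add, nsq]; congr 1; ring

lemma g3_le_one {ε : ℝ} (hε : 0 ≤ ε) (q : T3) : g3 ε ε ε q ≤ 1 := by
  rw [g3_eq, Real.exp_le_one_iff]
  nlinarith [nsq_nonneg q]

lemma integrable_g3 {a b c : ℝ} (ha : 0 < a) (hb : 0 < b) (hc : 0 < c) :
    Integrable (g3 a b c) :=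
  (integrable_exp_neg_mul_sq ha).mul_prod
    ((integrable_exp_neg_mul_sq hb).mul_prod (integrable_exp_neg_mul_sq hc))

lemma dot_sub (θ p q : T3) : dot θ (p - q) = dot θ p - dot θ q := by
  simp only [dot, Prod.fst_sub, Prod.snd_sub]; ring

/-- The damped cosine transform. -/
noncomputable def fh (f : T3 → ℝ) (ε : ℝ) (θ : T3) : ℝ :=
  ∫ q, f q * g3 ε ε ε q * Real.cos (dot θ q)

lemma fh_nonneg {f : T3 → ℝ} (hf : PD f) {ε : ℝ} (hε : 0 < ε) (θ : T3) :
    0 ≤ fh f ε θ := by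
  obtain ⟨hm, ⟨B, hB⟩, hpd⟩ := hf
  have hg := integrable_g3 (a := 2 * ε) (b := 2 * ε) (c := 2 * ε) (by positivity) (by positivity)
    (by positivity)
  set g := g3 (2 * ε) (2 * ε) (2 * ε) with hgd
  have hgm : Measurable g := measurable_g3 _ _ _
  have hgc : Integrable fun p => g p * Real.cos (dot θ p) :=
    int_bdd hg (by fun_prop) fun p => Real.abs_cos_le_one _
  have hgs : Integrable fun p => g p * Real.sin (dot θ p) :=
    int_bdd hg (by fun_prop) fun p => Real.abs_sin_le_one _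
  have h1 := hpd _ (by fun_prop) hgc
  have h2 := hpd _ (by fun_prop) hgs
  have i1 : Integrable (fun x : T3 × T3 => g x.1 * Real.cos (dot θ x.1) *
      (g x.2 * Real.cos (dot θ x.2)) * f (x.1 - x.2)) (volume.prod volume) :=
    int_bdd (hgc.mul_prod hgc) (by fun_prop) fun x => hB _
  have i2 : Integrable (fun x : T3 × T3 => g x.1 * Real.sin (dot θ x.1) *
      (g x.2 * Real.sin (dot θ x.2)) * f (x.1 - x.2)) (volume.prod volume) :=
    int_bdd (hgs.mul_prod hgs) (by fun_prop) fun x => hB _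
  rw [integral_integral i1] at h1
  rw [integral_integral i2] at h2
  have h3 := add_nonneg h1 h2
  rw [← integral_add i1 i2] at h3
  have i3 := i1.add i2
  have e : ∀ x : T3 × T3, g x.1 * Real.cos (dot θ x.1) *
      (g x.2 * Real.cos (dot θ x.2)) * f (x.1 - x.2) + g x.1 * Real.sin (dot θ x.1) *
      (g x.2 * Real.sin (dot θ x.2)) * f (x.1 - x.2) =
      g x.1 * g x.2 * (Real.cos (dot θ (x.1 - x.2)) * f (x.1 - x.2)) := fun x => by
    rw [dot_sub, Real.cos_sub]; ring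
  simp only [e] at h3
  have i4 : Integrable (fun x : T3 × T3 =>
      g x.1 * g x.2 * (Real.cos (dot θ (x.1 - x.2)) * f (x.1 - x.2))) (volume.prod volume) :=
    i3.congr (ae_of_all _ e)
  have mp := measurePreserving_add_prod (G := T3) volume volume
  have i5 := mp.integrable_comp_of_integrable i4
  rw [← mp.map_eq, integral_map mp.measurable.aemeasurable
    (Measurable.aestronglyMeasurable (by fun_prop))] at h3
  have e2 : ∀ u q : T3, g (u + q) * g q * (Real.cos (dot θ (u + q - q)) * f (u + q - q)) =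
      f u * g3 ε ε ε u * Real.cos (dot θ u) *
        g3 (4 * ε) (4 * ε) (4 * ε) (q + (1 / 2 : ℝ) • u) := by
    intro u q
    have : g (u + q) * g q =
        g3 ε ε ε u * g3 (4 * ε) (4 * ε) (4 * ε) (q + (1 / 2 : ℝ) • u) := by
      simp only [hgd, g3_eq, ← Real.exp_add, nsq, Prod.fst_add, Prod.snd_add, Prod.smul_fst,
        Prod.smul_snd, smul_eq_mul]
      congr 1; ring
    rw [this, add_sub_cancel_right]; ring
  replace h3 := h3.trans_eq (integral_prod _ i5)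
  simp only [e2, integral_const_mul, integral_add_right_eq_self,
    integral_mul_const] at h3
  have hC : 0 < ∫ q, g3 (4 * ε) (4 * ε) (4 * ε) q := by
    have := integrable_g3 (a := 4 * ε) (b := 4 * ε) (c := 4 * ε) (by positivity) (by positivity)
      (by positivity)
    simp only [g3_eq]
    exact integral_exp_pos (this.congr (ae_of_all _ fun q => g3_eq _ q))
  exact nonneg_of_mul_nonneg_left h3 hC

lemma inv3 {a b c : ℝ≥0} (ha : a ≠ 0) (hb : b ≠ 0) (hc : c ≠ 0) (q : T3) :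
    ∫ θ, g3 (a / 2) (b / 2) (c / 2) θ * Real.cos (dot θ q) =
      (2 * π) ^ 3 * (gaussianPDFReal 0 a q.1 *
        (gaussianPDFReal 0 b q.2.1 * gaussianPDFReal 0 c q.2.2)) := by
  have ha' : (0 : ℝ) < a := by positivity
  have hb' : (0 : ℝ) < b := by positivity
  have hc' : (0 : ℝ) < c := by positivity
  have h0 := integral_prod_mul (μ := (volume : Measure ℝ)) (ν := (volume : Measure ℝ))
    (fun t : ℝ => Complex.exp (Complex.I * q.2.1 * t) * Complex.exp (-((b / 2 : ℝ) : ℂ) * t ^ 2))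
    (fun t : ℝ => Complex.exp (Complex.I * q.2.2 * t) * Complex.exp (-((c / 2 : ℝ) : ℂ) * t ^ 2))
  have h := integral_prod_mul (μ := (volume : Measure ℝ)) (ν := (volume : Measure ℝ).prod volume)
    (fun t : ℝ => Complex.exp (Complex.I * q.1 * t) * Complex.exp (-((a / 2 : ℝ) : ℂ) * t ^ 2))
    (fun z : ℝ × ℝ =>
      Complex.exp (Complex.I * q.2.1 * z.1) * Complex.exp (-((b / 2 : ℝ) : ℂ) * z.1 ^ 2) *
      (Complex.exp (Complex.I * q.2.2 * z.2) * Complex.exp (-((c / 2 : ℝ) : ℂ) * z.2 ^ 2)))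
  rw [h0, inv1 ha, inv1 hb, inv1 hc, ← Complex.ofReal_mul, ← Complex.ofReal_mul] at h
  have e : ∀ θ : T3, Complex.exp (Complex.I * q.1 * θ.1) *
      Complex.exp (-((a / 2 : ℝ) : ℂ) * θ.1 ^ 2) *
      (Complex.exp (Complex.I * q.2.1 * θ.2.1) * Complex.exp (-((b / 2 : ℝ) : ℂ) * θ.2.1 ^ 2) *
      (Complex.exp (Complex.I * q.2.2 * θ.2.2) * Complex.exp (-((c / 2 : ℝ) : ℂ) * θ.2.2 ^ 2))) =
      (g3 (a / 2) (b / 2) (c / 2) θ : ℂ) * Complex.exp (dot θ q * Complex.I) := fun θ => by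
    simp only [g3, dot]
    push_cast
    simp only [← Complex.exp_add]
    congr 1; ring
  simp only [e] at h
  have hi : Integrable (fun θ : T3 =>
      (g3 (a / 2) (b / 2) (c / 2) θ : ℂ) * Complex.exp (dot θ q * Complex.I))
      (volume.prod (volume.prod volume)) :=
    (integrable_g3 (a := a / 2) (b := b / 2) (c := c / 2) (by positivity) (by positivity)
      (by positivity)).ofReal.mul_bdd
      (c := 1) (Measurable.aestronglyMeasurable (by fun_prop))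
      (ae_of_all _ fun θ => (Complex.norm_exp_ofReal_mul_I _).le)
  have h2 := integral_re hi
  rw [h] at h2
  simp only [RCLike.re_to_complex, Complex.re_ofReal_mul, Complex.exp_ofReal_mul_I_re,
    Complex.ofReal_re] at h2
  rw [show (2 * π) ^ 3 * (gaussianPDFReal 0 a q.1 *
        (gaussianPDFReal 0 b q.2.1 * gaussianPDFReal 0 c q.2.2)) =
    2 * π * gaussianPDFReal 0 a q.1 * (2 * π * gaussianPDFReal 0 b q.2.1 *
      (2 * π * gaussianPDFReal 0 c q.2.2)) by ring, ← h2]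
  rfl

lemma integral_N3 {a b c : ℝ≥0} (ha : a ≠ 0) (hb : b ≠ 0) (hc : c ≠ 0) (F : T3 → ℝ) :
    ∫ q, F q ∂N3 a b c = ∫ q, gaussianPDFReal 0 a q.1 *
      (gaussianPDFReal 0 b q.2.1 * gaussianPDFReal 0 c q.2.2) * F q := by
  rw [N3_eq_G3, G3_eq 0 ha hb hc, integral_withDensity_eq_integral_toReal_smul (by fun_prop)
    (ae_of_all _ fun q => (pdf3_ne_top _ _ _ _ q).lt_top)]
  refine integral_congr_ae (ae_of_all _ fun q => ?_)
  simp [pdf3, H83.pdf2]

lemma parseval {a b c : ℝ≥0} (ha : a ≠ 0) (hb : b ≠ 0) (hc : c ≠ 0) {F : T3 → ℝ}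
    (hF : Integrable F) :
    ∫ θ, g3 (a / 2) (b / 2) (c / 2) θ * ∫ q, F q * Real.cos (dot θ q) =
      (2 * π) ^ 3 * ∫ q, F q ∂N3 a b c := by
  have ha' : (0 : ℝ) < a := by positivity
  have hb' : (0 : ℝ) < b := by positivity
  have hc' : (0 : ℝ) < c := by positivity
  have hg := integrable_g3 (a := a / 2) (b := b / 2) (c := c / 2) (by positivity) (by positivity)
    (by positivity)
  have hi : Integrable (fun x : T3 × T3 =>
      g3 (a / 2) (b / 2) (c / 2) x.1 * F x.2 * Real.cos (dot x.1 x.2)) (volume.prod volume) :=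
    int_bdd (hg.mul_prod hF) (by fun_prop) fun x => Real.abs_cos_le_one _
  simp only [← integral_const_mul, ← mul_assoc]
  rw [integral_integral_swap hi, integral_N3 ha hb hc]
  refine integral_congr_ae (ae_of_all _ fun q => ?_)
  have : ∀ θ, g3 (a / 2) (b / 2) (c / 2) θ * F q * Real.cos (dot θ q) =
      F q * (g3 (a / 2) (b / 2) (c / 2) θ * Real.cos (dot θ q)) := fun θ => by ring
  simp only [this, integral_const_mul, inv3 ha hb hc]
  ring

lemma g3_rot {R : T3 ≃ₗ[ℝ] T3} (h : Orth R) (ε : ℝ) (q : T3) :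
    g3 ε ε ε (R q) = g3 ε ε ε q := by rw [g3_eq, g3_eq, h]

lemma integral_rot {R : T3 ≃ₗ[ℝ] T3} (h : Orth R) {F : T3 → ℝ} (hF : Measurable F) :
    ∫ q, F (R q) = ∫ q, F q := by
  have mp := h.mp
  conv_rhs => rw [← mp.map_eq]
  rw [integral_map mp.measurable.aemeasurable hF.aestronglyMeasurable]

@[fun_prop] lemma measurable_fh {f : T3 → ℝ} (hf : Measurable f) (ε : ℝ) :
    Measurable (fh f ε) := by
  have : Measurable fun x : T3 × T3 => f x.2 * g3 ε ε ε x.2 * Real.cos (dot x.1 x.2) := by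
    fun_prop
  exact (this.stronglyMeasurable.integral_prod_right' (ν := volume)).measurable

lemma integrable_damp {f : T3 → ℝ} (hm : Measurable f) {B : ℝ} (hB : ∀ q, |f q| ≤ B) {ε : ℝ}
    (hε : 0 < ε) : Integrable fun q => f q * g3 ε ε ε q :=
  (int_bdd (integrable_g3 hε hε hε) hm hB).congr (ae_of_all _ fun _ => mul_comm _ _)

lemma fh_bdd {f : T3 → ℝ} (hm : Measurable f) {B : ℝ} (hB : ∀ q, |f q| ≤ B) {ε : ℝ}
    (hε : 0 < ε) (θ : T3) : |fh f ε θ| ≤ ∫ q, |f q * g3 ε ε ε q| := by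
  refine abs_integral_le_integral_abs.trans (integral_mono_of_nonneg
    (ae_of_all _ fun _ => abs_nonneg _) (integrable_damp hm hB hε).abs (ae_of_all _ fun q => ?_))
  simp only [abs_mul (f q * g3 ε ε ε q)]
  exact mul_le_of_le_one_right (abs_nonneg _) (Real.abs_cos_le_one _)

/-- The number `L` is the pairing of the symbol `σ` with the spectral measure of `f`. -/
def Rep (f : T3 → ℝ) (L : ℝ) (σ : T3 → ℝ) : Prop :=
  (∀ n : ℕ, Integrable fun θ => σ θ * fh f (1 / ((n : ℝ) + 1)) θ) ∧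
    Tendsto (fun n : ℕ => ∫ θ, σ θ * fh f (1 / ((n : ℝ) + 1)) θ) atTop (𝓝 ((2 * π) ^ 3 * L))

lemma Rep.congr {f σ σ' : T3 → ℝ} {L : ℝ} (h : Rep f L σ) (e : ∀ θ, σ θ = σ' θ) :
    Rep f L σ' := by
  rwa [← funext e]

lemma Rep.add {f σ σ' : T3 → ℝ} {L L' : ℝ} (h : Rep f L σ) (h' : Rep f L' σ') :
    Rep f (L + L') fun θ => σ θ + σ' θ := by
  refine ⟨fun n => ?_, ?_⟩
  · simp only [add_mul]; exact (h.1 n).add (h'.1 n)
  · simp only [add_mul, mul_add, integral_add (h.1 _) (h'.1 _)]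
    exact h.2.add h'.2

lemma Rep.smul {f σ : T3 → ℝ} {L : ℝ} (h : Rep f L σ) (w : ℝ) :
    Rep f (w * L) fun θ => w * σ θ := by
  refine ⟨fun n => ?_, ?_⟩
  · simp only [mul_assoc]; exact (h.1 n).const_mul w
  · simp only [mul_assoc w, integral_const_mul, mul_left_comm _ w]
    exact h.2.const_mul w

lemma Rep.sub {f σ σ' : T3 → ℝ} {L L' : ℝ} (h : Rep f L σ) (h' : Rep f L' σ') :
    Rep f (L - L') fun θ => σ θ - σ' θ := by
  have := h.add (h'.smul (-1))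
  simpa only [neg_one_mul, ← sub_eq_add_neg] using this

lemma Rep.sum {ι : Type*} {f : T3 → ℝ} {σ : ι → T3 → ℝ} {L : ι → ℝ} (J : Finset ι)
    (h : ∀ i, Rep f (L i) (σ i)) : Rep f (∑ i ∈ J, L i) fun θ => ∑ i ∈ J, σ i θ := by
  classical
  induction J using Finset.induction_on with
  | empty => simp [Rep]
  | insert i J hi ih => simp only [Finset.sum_insert hi]; exact (h i).add ih

lemma Rep.le {f σ σ' : T3 → ℝ} {L L' : ℝ} (hf : PD f) (h : Rep f L σ) (h' : Rep f L' σ')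
    (hσ : ∀ θ, σ θ ≤ σ' θ) : L ≤ L' := by
  have h1 := le_of_tendsto_of_tendsto' h.2 h'.2 fun n => integral_mono (h.1 n) (h'.1 n)
    fun θ => mul_le_mul_of_nonneg_right (hσ θ) (fh_nonneg hf (by positivity) θ)
  exact le_of_mul_le_mul_left h1 (by positivity)

lemma rep_base {f : T3 → ℝ} (hf : PD f) {R : T3 ≃ₗ[ℝ] T3} (h : Orth R) {a b c : ℝ≥0}
    (ha : a ≠ 0) (hb : b ≠ 0) (hc : c ≠ 0) :
    Rep f (Gi (fun q => f (R q)) a b c) fun θ => g3 (a / 2) (b / 2) (c / 2) (R.symm θ) := by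
  obtain ⟨hm, ⟨B, hB⟩, -⟩ := hf
  have ha' : (0 : ℝ) < a := by positivity
  have hb' : (0 : ℝ) < b := by positivity
  have hc' : (0 : ℝ) < c := by positivity
  have hg := h.symm.mp.integrable_comp_of_integrable
    (integrable_g3 (a := a / 2) (b := b / 2) (c := c / 2) (by positivity) (by positivity)
      (by positivity))
  refine ⟨fun n => int_bdd hg (by fun_prop) (fh_bdd hm hB (by positivity)), ?_⟩
  have e : ∀ ε : ℝ, 0 < ε → ∫ θ, g3 (a / 2) (b / 2) (c / 2) (R.symm θ) * fh f ε θ =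
      (2 * π) ^ 3 * ∫ q, f (R q) * g3 ε ε ε q ∂N3 a b c := fun ε hε => by
    rw [← parseval ha hb hc
      (integrable_damp (f := fun q => f (R q)) (by fun_prop) (fun q => hB _) hε),
      ← integral_rot h (by fun_prop)]
    refine integral_congr_ae (ae_of_all _ fun θ => ?_)
    simp only [R.symm_apply_apply, fh]
    rw [← integral_rot h (by fun_prop)]
    simp only [h.dot, g3_rot h]
  have e' : ∀ n : ℕ, (0 : ℝ) < 1 / ((n : ℝ) + 1) := fun n => by positivity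
  simp only [e _ (e' _)]
  refine Tendsto.const_mul _ (tendsto_integral_of_dominated_convergence (fun _ => B)
    (fun n => Measurable.aestronglyMeasurable (by fun_prop)) (integrable_const _)
    (fun n => ae_of_all _ fun q => ?_) (ae_of_all _ fun q => ?_))
  · rw [Real.norm_eq_abs, abs_mul, abs_of_pos (g3_pos _ _ _ _)]
    exact (mul_le_of_le_one_right (abs_nonneg _) (g3_le_one (e' n).le q)).trans (hB _)
  · simp only [g3_eq]
    have t : Tendsto (fun n : ℕ => -(1 / ((n : ℝ) + 1)) * nsq q) atTop (𝓝 (-0 * nsq q)) :=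
      tendsto_one_div_add_atTop_nhds_zero_nat.neg.mul_const _
    have t2 := ((Real.continuous_exp.tendsto _).comp t).const_mul (f (R q))
    simpa [Function.comp] using t2

/-- Two-dimensional symbols. -/
noncomputable def E2 (κ : ℝ≥0) (m j : ℕ) (u : T3) : ℝ := ee κ m u.2.1 * ee κ j u.2.2

/-- The symbol of a mixed difference. -/
noncomputable def sy (κ : ℝ≥0) (i m j : ℕ) (u : T3) : ℝ :=
  dd κ i u.1 * (E2 κ m j u - E2 κ (m + 1) (j + 1) u)

lemma ee_anti {κ : ℝ≥0} (hκ : 2 ≤ κ) {i j : ℕ} (h : i ≤ j) (x : ℝ) : ee κ j x ≤ ee κ i x := by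
  have hκ' : (2 : ℝ) ≤ κ := hκ
  refine Real.exp_le_exp.2 (mul_le_mul_of_nonneg_right ?_ (sq_nonneg x))
  have : (κ : ℝ) ^ i ≤ κ ^ j := pow_le_pow_right₀ (by linarith) h
  linarith

lemma E2_pos (κ : ℝ≥0) (m j : ℕ) (u : T3) : 0 < E2 κ m j u := mul_pos (ee_pos _ _ _) (ee_pos _ _ _)

lemma E2_anti {κ : ℝ≥0} (hκ : 2 ≤ κ) {m m' j j' : ℕ} (h : m ≤ m') (h' : j ≤ j') (u : T3) :
    E2 κ m' j' u ≤ E2 κ m j u :=
  mul_le_mul (ee_anti hκ h _) (ee_anti hκ h' _) (ee_pos _ _ _).le (ee_pos _ _ _).le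

lemma sy_nonneg {κ : ℝ≥0} (hκ : 2 ≤ κ) (i m j : ℕ) (u : T3) : 0 ≤ sy κ i m j u :=
  mul_nonneg (dd_nonneg hκ _ _) (sub_nonneg.2 (E2_anti hκ (Nat.le_succ _) (Nat.le_succ _) u))

lemma rep_Dk {f : T3 → ℝ} (hf : PD f) {R : T3 ≃ₗ[ℝ] T3} (h : Orth R) {κ : ℝ≥0}
    (hκ : 2 ≤ κ) (i m j : ℕ) :
    Rep f (Dk κ (fun q => f (R q)) i m j) fun θ => sy κ i m j (R.symm θ) := by
  have h0 : ∀ n : ℕ, κ ^ n ≠ 0 := fun n => pow_ne_zero _ (lt_of_lt_of_le two_pos hκ).ne'
  have := (((rep_base hf h (h0 i) (h0 m) (h0 j)).sub (rep_base hf h (h0 (i + 1)) (h0 m) (h0 j))).sub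
    (rep_base hf h (h0 i) (h0 (m + 1)) (h0 (j + 1)))).add
    (rep_base hf h (h0 (i + 1)) (h0 (m + 1)) (h0 (j + 1)))
  refine this.congr fun θ => ?_
  simp only [sy, E2, dd, ee, g3, NNReal.coe_pow]
  ring

lemma rep_Dk' {f : T3 → ℝ} (hf : PD f) {κ : ℝ≥0} (hκ : 2 ≤ κ) (i m j : ℕ) :
    Rep f (Dk κ f i m j) (sy κ i m j) :=
  rep_Dk hf orth_refl hκ i m j

lemma rep_Gi {f : T3 → ℝ} (hf : PD f) {a b c : ℝ≥0} (ha : a ≠ 0) (hb : b ≠ 0) (hc : c ≠ 0) :
    Rep f (Gi f a b c) (g3 (a / 2) (b / 2) (c / 2)) :=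
  rep_base hf orth_refl ha hb hc

lemma sum_sy {κ : ℝ≥0} (hκ : 2 ≤ κ) (J : Finset (ℕ × ℕ)) (hJ : ∀ x ∈ J, x.2 ≤ x.1) (u : T3) :
    ∑ x ∈ J, sy κ (x.1 + x.2) x.1 (x.1 - x.2) u ≤ ee κ 0 u.1 * E2 κ 0 0 u := by
  classical
  set b : ℕ → ℕ → ℝ := fun i k => E2 κ (i + 1 - k) (i + 2 - 2 * k) u with hb
  set w : ℕ × ℕ → ℝ := fun z => dd κ z.1 u.1 * (b z.1 (z.2 + 1) - b z.1 z.2) with hw
  have w0 : ∀ z, 0 ≤ w z := fun z =>
    mul_nonneg (dd_nonneg hκ _ _) (sub_nonneg.2 (E2_anti hκ (by omega) (by omega) u))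
  have h1 : ∑ x ∈ J, sy κ (x.1 + x.2) x.1 (x.1 - x.2) u ≤ ∑ x ∈ J, w (x.1 + x.2, x.2) := by
    refine Finset.sum_le_sum fun x hx => mul_le_mul_of_nonneg_left ?_ (dd_nonneg hκ _ _)
    have := hJ x hx
    exact sub_le_sub (E2_anti hκ (by omega) (by omega) u) (E2_anti hκ (by omega) (by omega) u)
  have h2 : ∑ x ∈ J, w (x.1 + x.2, x.2) =
      ∑ z ∈ J.image (fun x : ℕ × ℕ => (x.1 + x.2, x.2)), w z := by
    rw [Finset.sum_image]
    intro x _ y _ h
    simp only [Prod.mk.injEq] at h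
    exact Prod.ext (by omega) h.2
  obtain ⟨R, hR⟩ : ∃ R, J.image (fun x : ℕ × ℕ => (x.1 + x.2, x.2)) ⊆
      Finset.range R ×ˢ Finset.range R := by
    refine ⟨J.sup (fun z => z.1 + z.2) + 1, fun z hz => ?_⟩
    obtain ⟨x, hx, rfl⟩ := Finset.mem_image.1 hz
    have := Finset.le_sup (f := fun z : ℕ × ℕ => z.1 + z.2) hx
    simp only [Finset.mem_product, Finset.mem_range] at this ⊢
    omega
  refine h1.trans (h2.trans_le ((Finset.sum_le_sum_of_subset_of_nonneg hR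
    fun z _ _ => w0 z).trans ?_))
  rw [Finset.sum_product]
  have h3 : ∀ i, ∑ k ∈ Finset.range R, w (i, k) ≤ dd κ i u.1 * E2 κ 0 0 u := fun i => by
    simp only [hw]
    rw [← Finset.mul_sum, Finset.sum_range_sub (fun k => b i k)]
    refine mul_le_mul_of_nonneg_left ?_ (dd_nonneg hκ _ _)
    have a1 : b i R ≤ E2 κ 0 0 u := E2_anti hκ (Nat.zero_le _) (Nat.zero_le _) u
    have a2 : 0 < b i 0 := E2_pos _ _ _ _
    linarith
  refine (Finset.sum_le_sum fun i _ => h3 i).trans ?_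
  rw [← Finset.sum_mul]
  exact mul_le_mul_of_nonneg_right (sum_dd κ R _) (E2_pos _ _ _ _).le

lemma sy_frame {κ : ℝ≥0} (hκ : 2 ≤ κ) {i : ℕ} {u : T3} {γ : ℝ} (hγ : 0 ≤ γ)
    (h1 : 1 ≤ (κ : ℝ) ^ i * nsq u) (h2 : γ * nsq u ^ 2 ≤ wg u) :
    Real.exp (-((κ : ℝ) ^ i * nsq u) / 2) * (1 - Real.exp (-γ / 2)) ^ 2 ≤ sy κ i i i u := by
  have hκ' : (2 : ℝ) ≤ κ := hκ
  have hK : 0 ≤ (κ : ℝ) ^ i := by positivity
  have hr : 0 < nsq u := by
    refine lt_of_le_of_ne (nsq_nonneg u) fun h0 => ?_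
    rw [← h0] at h1; linarith
  set p := u.2.1 ^ 2 + u.2.2 ^ 2 with hp
  have hp0 : 0 ≤ p := by positivity
  have hn : nsq u = u.1 ^ 2 + p := by rw [nsq, hp]; ring
  have hw : wg u = u.1 ^ 2 * p := rfl
  have a1 : γ * nsq u ≤ u.1 ^ 2 := by
    refine le_of_mul_le_mul_right ?_ hr
    have : u.1 ^ 2 * p ≤ u.1 ^ 2 * nsq u :=
      mul_le_mul_of_nonneg_left (by rw [hn]; linarith [sq_nonneg u.1]) (sq_nonneg _)
    nlinarith
  have a2 : γ * nsq u ≤ p := by
    refine le_of_mul_le_mul_right ?_ hr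
    have : p * u.1 ^ 2 ≤ p * nsq u :=
      mul_le_mul_of_nonneg_left (by rw [hn]; linarith) hp0
    nlinarith
  have b : ∀ x : ℝ, γ * nsq u ≤ x → γ ≤ (κ : ℝ) ^ i * x := fun x hx => by
    nlinarith [mul_le_mul_of_nonneg_left hx hK, mul_le_mul_of_nonneg_left h1 hγ]
  have h3 : 0 ≤ 1 - Real.exp (-γ / 2) := sub_nonneg.2 (Real.exp_le_one_iff.2 (by linarith))
  have hE : ∀ n, E2 κ n n u = Real.exp (-((κ : ℝ) ^ n * p) / 2) := fun n => by
    rw [E2, ee, ee, ← Real.exp_add, hp]; congr 1; ring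
  have h4 : E2 κ i i u * (1 - Real.exp (-γ / 2)) ≤ E2 κ i i u - E2 κ (i + 1) (i + 1) u := by
    have : E2 κ (i + 1) (i + 1) u ≤ E2 κ i i u * Real.exp (-γ / 2) := by
      rw [hE, hE, ← Real.exp_add, Real.exp_le_exp, pow_succ]
      have h0 : 0 ≤ (κ : ℝ) ^ i * p := by positivity
      have := b _ a2
      nlinarith
    linarith
  refine le_trans (le_of_eq ?_) (mul_le_mul (dd_lower hκ (b _ a1)) h4
    (mul_nonneg (E2_pos _ _ _ _).le h3) (dd_nonneg hκ _ _))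
  rw [mul_mul_mul_comm, hE, ee, ← Real.exp_add, sq (1 - _), hn]
  congr 2; ring

lemma strict {κ : ℝ≥0} (hκ : 2 ≤ κ) {R₂ R₃ : T3 ≃ₗ[ℝ] T3} (o₂ : Orth R₂) (o₃ : Orth R₃) {γ : ℝ}
    (hγ0 : 0 ≤ γ) (hγ : ∀ u, 3 * γ * nsq u ^ 2 ≤ wg u + wg (R₂.symm u) + wg (R₃.symm u))
    (N : ℕ) {v : ℝ} {m₁ : ℕ} (hv : v ≤ (κ : ℝ) ^ (N + m₁)) (θ : T3) :
    Real.exp (-κ / 2) * (1 - Real.exp (-γ / 2)) ^ 2 *
      (g3 ((κ : ℝ) ^ N / 2) ((κ : ℝ) ^ N / 2) ((κ : ℝ) ^ N / 2) θ -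
        Real.exp (1 / 2) * g3 (v / 2) (v / 2) (v / 2) θ) ≤
      ∑ m ∈ Finset.range (m₁ + 1), (sy κ (N + m) (N + m) (N + m) θ +
        sy κ (N + m) (N + m) (N + m) (R₂.symm θ) + sy κ (N + m) (N + m) (N + m) (R₃.symm θ)) := by
  have hκ' : (2 : ℝ) ≤ κ := hκ
  have hn : ∀ m (u : T3), 0 ≤ sy κ (N + m) (N + m) (N + m) u := fun m u => sy_nonneg hκ _ _ _ _
  have hr := nsq_nonneg θ
  set w := (1 - Real.exp (-γ / 2)) ^ 2 with hw
  have hw0 : 0 ≤ w := sq_nonneg _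
  rw [g3_eq, g3_eq]
  by_cases h1 : v * nsq θ ≤ 1
  · refine le_trans (mul_nonpos_of_nonneg_of_nonpos (by positivity) ?_)
      (Finset.sum_nonneg fun m _ => add_nonneg (add_nonneg (hn m _) (hn m _)) (hn m _))
    rw [← Real.exp_add, sub_nonpos, Real.exp_le_exp]
    have : 0 ≤ (κ : ℝ) ^ N * nsq θ := by positivity
    linarith
  have h2 : 1 ≤ (κ : ℝ) ^ (N + m₁) * nsq θ :=
    (not_le.1 h1).le.trans (mul_le_mul_of_nonneg_right hv hr)
  have hex : ∃ m, 1 ≤ (κ : ℝ) ^ (N + m) * nsq θ := ⟨m₁, h2⟩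
  classical
  set m := Nat.find hex with hm
  have hm1 : 1 ≤ (κ : ℝ) ^ (N + m) * nsq θ := Nat.find_spec hex
  have hm2 : m ≤ m₁ := Nat.find_min' hex h2
  refine le_trans ?_ (Finset.single_le_sum (f := fun m => sy κ (N + m) (N + m) (N + m) θ +
    sy κ (N + m) (N + m) (N + m) (R₂.symm θ) + sy κ (N + m) (N + m) (N + m) (R₃.symm θ))
    (fun m _ => add_nonneg (add_nonneg (hn m _) (hn m _)) (hn m _))
    (Finset.mem_range.2 (Nat.lt_succ_of_le hm2)))
  have h3 : Real.exp (-κ / 2) * Real.exp (-((κ : ℝ) ^ N / 2) * nsq θ) ≤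
      Real.exp (-((κ : ℝ) ^ (N + m) * nsq θ) / 2) := by
    rw [← Real.exp_add, Real.exp_le_exp]
    have h0 : 0 ≤ (κ : ℝ) ^ N * nsq θ := by positivity
    rcases Nat.eq_zero_or_pos m with h4 | h4
    · rw [h4, add_zero]; linarith
    · have h5 := not_le.1 (Nat.find_min hex (m := m - 1) (by omega))
      have : (κ : ℝ) ^ (N + m) = κ * κ ^ (N + (m - 1)) := by
        rw [← pow_succ']; congr 1; omega
      rw [this]
      nlinarith
  have h4 : Real.exp (-((κ : ℝ) ^ (N + m) * nsq θ) / 2) * w ≤ sy κ (N + m) (N + m) (N + m) θ +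
      sy κ (N + m) (N + m) (N + m) (R₂.symm θ) + sy κ (N + m) (N + m) (N + m) (R₃.symm θ) := by
    have t := hγ θ
    have k : ∀ u : T3, nsq u = nsq θ → γ * nsq θ ^ 2 ≤ wg u →
        Real.exp (-((κ : ℝ) ^ (N + m) * nsq θ) / 2) * w ≤ sy κ (N + m) (N + m) (N + m) u :=
      fun u hu h5 => by
        have := sy_frame hκ (u := u) hγ0 (i := N + m) (by rw [hu]; exact hm1)
          (by rw [hu]; exact h5)
        rwa [hu] at this
    have n1 := hn m θ
    have n2 := hn m (R₂.symm θ)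
    have n3 := hn m (R₃.symm θ)
    by_cases h5 : γ * nsq θ ^ 2 ≤ wg θ
    · linarith [k θ rfl h5]
    by_cases h6 : γ * nsq θ ^ 2 ≤ wg (R₂.symm θ)
    · linarith [k _ (o₂.symm θ) h6]
    · linarith [k _ (o₃.symm θ) (by linarith)]
  refine le_trans ?_ h4
  have h5 : 0 ≤ Real.exp (-κ / 2) * w * (Real.exp (1 / 2) * Real.exp (-(v / 2) * nsq θ)) := by
    positivity
  nlinarith [mul_le_mul_of_nonneg_right h3 hw0]

theorem pd : PDStmt := by
  intro κ hκ
  have hκ' : (2 : ℝ) ≤ κ := hκ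
  refine ⟨fun f hf i m j => ?_, fun f hf J hJ => ?_, fun R₂ R₃ hG => ?_⟩
  · have h0 : Rep f 0 fun _ => 0 := by simp [Rep]
    exact h0.le hf (rep_Dk' hf hκ i m j) fun θ => sy_nonneg hκ _ _ _ _
  · refine (Rep.sum J fun z => rep_Dk' hf hκ (z.1 + z.2) z.1 (z.1 - z.2)).le hf
      (rep_Gi hf one_ne_zero one_ne_zero one_ne_zero) fun θ => (sum_sy hκ J hJ θ).trans_eq ?_
    simp [E2, ee, g3]
  · obtain ⟨γ, hγ0, hγ⟩ := hG.three_frames
    refine ⟨Real.exp (-κ / 2) * (1 - Real.exp (-(γ / 3) / 2)) ^ 2, ?_, fun f hf N v hv => ?_⟩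
    · exact mul_pos (Real.exp_pos _)
        (pow_pos (sub_pos.2 (Real.exp_lt_one_iff.2 (by linarith))) 2)
    obtain ⟨m₁, hm⟩ := pow_unbounded_of_one_lt (v : ℝ) (show (1 : ℝ) < κ by linarith)
    have hm' : (v : ℝ) ≤ (κ : ℝ) ^ (N + m₁) :=
      hm.le.trans (pow_le_pow_right₀ (by linarith) (Nat.le_add_left _ _))
    have h0 : κ ^ N ≠ 0 := pow_ne_zero _ (lt_of_lt_of_le two_pos hκ).ne'
    refine ⟨m₁ + 1, (((rep_Gi hf h0 h0 h0).sub ((rep_Gi hf hv hv hv).smul _)).smul _).le hf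
      (Rep.sum _ fun m => ((rep_Dk' hf hκ _ _ _).add (rep_Dk hf hG.o₂ hκ _ _ _)).add
        (rep_Dk hf hG.o₃ hκ _ _ _)) fun θ => ?_⟩
    simpa only [NNReal.coe_pow] using strict hκ hG.o₂ hG.o₃ (γ := γ / 3) (by positivity)
      (fun u => by rw [show 3 * (γ / 3) = γ by ring]; exact hγ u) N hm' θ

end Pool.Agent.MP_2b113a_an.H49.PD3
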